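import Pool.Agent.Lib.MP_1f2a9f_co.KW.AELower
import Pool.Agent.Lib.MP_1f2a9f_co.KW.AEUpper
import Pool.Agent.Lib.MP_1f2a9f_co.KW.Contained

/-!
# MP_1f2a9f_co : the exact constant for almost all guests

Let `Cls m` be the class `H_m` of the problem (the graphs with exactly `m` edges and no isolated
vertex, up to isomorphism). A graph with `(2/e^2 + ε) (m / ln m)^2` edges can contain all members of
`Cls m` but an exponentially small fraction, and a graph with `(2/e^2 - ε) (m / ln m)^2` edges contains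
only an exponentially small fraction. So for every `0 < c < 1` the least number of edges of a graph
containing the fraction `c` of `Cls m` is `(2/e^2 + o(1)) (m / ln m)^2`.
-/

set_option autoImplicit false

open Filter Topology Pool.Agent.Lib.MP_1f2a9f_co.KW

namespace Pool.Agent.Results.MP_1f2a9f_co.AlmostAllGuests

/-- The least number of edges of a finite graph containing at least the fraction `c` of the members
of `Cls m`. -/
noncomputable def fPart (c : ℝ) (m : ℕ) : ℕ :=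
  sInf {k | ∃ (N : ℕ) (G : SimpleGraph (Fin N)), G.edgeSet.ncard = k ∧
    c * (Nat.card (Cls m) : ℝ) ≤ ((HostedIn m G).ncard : ℝ)}

theorem tendsto_of (f : ℕ → ℕ) (c : ℝ)
    (h : ∀ ε : ℝ, 0 < ε → ∃ m0 : ℕ, ∀ m ≥ m0,
      (c - ε) * ((m : ℝ) / Real.log m) ^ 2 ≤ (f m : ℝ) ∧
      (f m : ℝ) ≤ (c + ε) * ((m : ℝ) / Real.log m) ^ 2) :
    Tendsto (fun m : ℕ => (f m : ℝ) / ((m : ℝ) / Real.log m) ^ 2) atTop (𝓝 c) := by
  rw [Metric.tendsto_atTop]
  intro ε hε
  obtain ⟨m0, h0⟩ := h (ε / 2) (by positivity)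
  refine ⟨max m0 3, fun m hm => ?_⟩
  obtain ⟨h1, h2⟩ := h0 m (le_trans (le_max_left _ _) hm)
  have hm3 : 3 ≤ m := le_trans (le_max_right _ _) hm
  have hlog : 0 < Real.log m := Real.log_pos (by exact_mod_cast (by omega : 1 < m))
  have hmpos : (0 : ℝ) < m := by exact_mod_cast (by omega : 0 < m)
  have hs : 0 < ((m : ℝ) / Real.log m) ^ 2 := by positivity
  rw [Real.dist_eq, abs_lt]
  constructor
  · have : c - ε / 2 ≤ (f m : ℝ) / ((m : ℝ) / Real.log m) ^ 2 := by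
      rw [le_div_iff₀ hs]
      exact h1
    linarith
  · have : (f m : ℝ) / ((m : ℝ) / Real.log m) ^ 2 ≤ c + ε / 2 := by
      rw [div_le_iff₀ hs]
      exact h2
    linarith

theorem cls_pos (m : ℕ) (hm : 1 ≤ m) : 0 < Nat.card (Cls m) := by
  by_contra h
  have h0 : Nat.card (Cls m) = 0 := by omega
  have h1 := card_cls (m + 1) m
  rw [card_Gr, h0, zero_mul] at h1
  have h2 : 0 < ((m + 1).choose 2).choose m := by
    apply Nat.choose_pos
    rw [Nat.choose_two_right, Nat.add_sub_cancel]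
    have : 2 * m ≤ (m + 1) * m := Nat.mul_le_mul_right m (by omega)
    omega
  omega

theorem exp_small (c' c : ℝ) (hc' : 0 < c') (hc : 0 < c) :
    ∃ m0 : ℕ, ∀ m ≥ m0, Real.exp (-(c' * (m : ℝ))) < c := by
  have h1 : Tendsto (fun m : ℕ => Real.exp (-(c' * (m : ℝ)))) atTop (𝓝 0) := by
    apply Real.tendsto_exp_atBot.comp
    apply tendsto_neg_atTop_atBot.comp
    exact Tendsto.const_mul_atTop hc' tendsto_natCast_atTop_atTop
  have h2 := (tendsto_order.1 h1).2 c hc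
  rw [eventually_atTop] at h2
  exact h2

theorem part (c : ℝ) (hc0 : 0 < c) (hc1 : c < 1) :
    Tendsto (fun m : ℕ => (fPart c m : ℝ) / ((m : ℝ) / Real.log m) ^ 2) atTop
      (𝓝 (2 * Real.exp (-2))) := by
  refine tendsto_of _ _ fun ε hε => ?_
  obtain ⟨c1, hc1', m1, h1⟩ := ae_lower ε hε
  obtain ⟨c2, hc2', m2, h2⟩ := ae_upper ε hε
  obtain ⟨m3, h3⟩ := exp_small c1 c hc1' hc0
  obtain ⟨m4, h4⟩ := exp_small c2 (1 - c) hc2' (by linarith)
  refine ⟨m1 + m2 + m3 + m4 + 1, fun m hm => ?_⟩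
  have hpos : (0 : ℝ) < (Nat.card (Cls m) : ℝ) := by exact_mod_cast cls_pos m (by omega)
  haveI := finite_cls m
  obtain ⟨N, G, hG1, hG2⟩ := h2 m (by omega)
  have hmem : G.edgeSet.ncard ∈ {k | ∃ (N : ℕ) (G : SimpleGraph (Fin N)),
      G.edgeSet.ncard = k ∧ c * (Nat.card (Cls m) : ℝ) ≤ ((HostedIn m G).ncard : ℝ)} := by
    refine ⟨N, G, rfl, ?_⟩
    have e1 : (HostedIn m G).ncard + ((HostedIn m G)ᶜ).ncard = Nat.card (Cls m) :=
      Set.ncard_add_ncard_compl _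
    have e2 : ((HostedIn m G).ncard : ℝ) + (((HostedIn m G)ᶜ).ncard : ℝ) =
        (Nat.card (Cls m) : ℝ) := by exact_mod_cast e1
    have e3 := h4 m (by omega)
    nlinarith
  constructor
  · obtain ⟨N', G', hk, hG'⟩ := Nat.sInf_mem (Set.nonempty_of_mem hmem)
    by_contra hcon
    push Not at hcon
    have hk' : (G'.edgeSet.ncard : ℝ) ≤
        (2 * Real.exp (-2) - ε) * ((m : ℝ) / Real.log m) ^ 2 := by
      rw [hk]
      exact hcon.le
    have h5 := h1 m (by omega) N' G' hk'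
    have h6 := h3 m (by omega)
    nlinarith
  · refine le_trans ?_ hG2
    exact_mod_cast Nat.sInf_le hmem

theorem result :
    (∀ m : ℕ, Finite (Cls m)) ∧
    (∀ ε : ℝ, 0 < ε → ∃ c' : ℝ, 0 < c' ∧ ∃ m0 : ℕ, ∀ m ≥ m0,
      (∃ (N : ℕ) (G : SimpleGraph (Fin N)),
        (G.edgeSet.ncard : ℝ) ≤ (2 * Real.exp (-2) + ε) * ((m : ℝ) / Real.log m) ^ 2 ∧
        (((HostedIn m G)ᶜ).ncard : ℝ) ≤ Real.exp (-(c' * m)) * (Nat.card (Cls m) : ℝ)) ∧
      (∀ (N : ℕ) (G : SimpleGraph (Fin N)),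
        (G.edgeSet.ncard : ℝ) ≤ (2 * Real.exp (-2) - ε) * ((m : ℝ) / Real.log m) ^ 2 →
        ((HostedIn m G).ncard : ℝ) ≤ Real.exp (-(c' * m)) * (Nat.card (Cls m) : ℝ))) ∧
    (∀ c : ℝ, 0 < c → c < 1 →
      Tendsto (fun m : ℕ => (fPart c m : ℝ) / ((m : ℝ) / Real.log m) ^ 2) atTop
        (𝓝 (2 * Real.exp (-2)))) := by
  refine ⟨finite_cls, fun ε hε => ?_, part⟩
  obtain ⟨c1, hc1, m1, h1⟩ := ae_lower ε hε
  obtain ⟨c2, hc2, m2, h2⟩ := ae_upper ε hε
  refine ⟨min c1 c2, lt_min hc1 hc2, max m1 m2, fun m hm => ⟨?_, ?_⟩⟩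
  · obtain ⟨N, G, hG1, hG2⟩ := h2 m (le_trans (le_max_right _ _) hm)
    refine ⟨N, G, hG2, hG1.trans ?_⟩
    apply mul_le_mul_of_nonneg_right _ (Nat.cast_nonneg _)
    apply Real.exp_le_exp.2
    apply neg_le_neg
    exact mul_le_mul_of_nonneg_right (min_le_right _ _) (Nat.cast_nonneg _)
  · intro N G hG
    refine (h1 m (le_trans (le_max_left _ _) hm) N G hG).trans ?_
    apply mul_le_mul_of_nonneg_right _ (Nat.cast_nonneg _)
    apply Real.exp_le_exp.2
    apply neg_le_neg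
    exact mul_le_mul_of_nonneg_right (min_le_left _ _) (Nat.cast_nonneg _)

end Pool.Agent.Results.MP_1f2a9f_co.AlmostAllGuests
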