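import Pool.Agent.Lib.MP_1f2a9f_co.KW.UpperPow
import Pool.Agent.Lib.MP_1f2a9f_co.KW.LowerExp
import Pool.Agent.Lib.MP_1f2a9f_co.KW.Contained

/-!
# MP_1f2a9f_co : the exact constant for guests of prescribed order

Let `α > 0`, `n = ⌊α m / ln m⌋` and let `Gr n m` be the set of the graphs on `n` labelled vertices with
exactly `m` edges. Some graph with `(α^2 e^(-α) / 2 + ε) (m / ln m)^2` edges contains all members of
`Gr n m` but a fraction `m ^ (-c')`, and every graph with `(α^2 e^(-α) / 2 - ε) (m / ln m)^2` edges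
contains only an exponentially small fraction. So for every `0 < c < 1` the least number of edges of a
graph containing the fraction `c` of `Gr n m` is `(α^2 e^(-α) / 2 + o(1)) (m / ln m)^2`.
-/

set_option autoImplicit false

open Filter Topology Pool.Agent.Lib.MP_1f2a9f_co.KW

namespace Pool.Agent.Results.MP_1f2a9f_co.FixedOrder

/-- The least number of edges of a finite graph containing at least the fraction `c` of all graphs
with vertex set `Fin n`, `n = ⌊α m / ln m⌋`, and exactly `m` edges. -/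
noncomputable def fFrac (α c : ℝ) (m : ℕ) : ℕ :=
  sInf {k | ∃ (N : ℕ) (G : SimpleGraph (Fin N)), G.edgeSet.ncard = k ∧
    c * ((Gr (nA α m) m).ncard : ℝ) ≤ ({H ∈ Gr (nA α m) m | H.IsContained G}.ncard : ℝ)}

theorem tendsto_of (f : ℕ → ℕ) (c : ℝ)
    (h : ∀ ε : ℝ, 0 < ε → ∃ m0 : ℕ, ∀ m ≥ m0,
      (c - ε) * ((m : ℝ) / Real.log m) ^ 2 ≤ (f m : ℝ) ∧
      (f m : ℝ) ≤ (c + ε) * ((m : ℝ) / Real.log m) ^ 2) :
    Tendsto (fun m : ℕ => (f m : ℝ) / ((m : ℝ) / Real.log m) ^ 2) atTop (𝓝 c) := by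
  rw [Metric.tendsto_atTop]
  intro ε hε
  obtain ⟨m0, h0⟩ := h (ε / 2) (by positivity)
  refine ⟨max m0 3, fun m hm => ?_⟩
  obtain ⟨h1, h2⟩ := h0 m (le_trans (le_max_left _ _) hm)
  have hm3 : 3 ≤ m := le_trans (le_max_right _ _) hm
  have hlog : 0 < Real.log m := Real.log_pos (by exact_mod_cast (by omega : 1 < m))
  have hmpos : (0 : ℝ) < m := by exact_mod_cast (by omega : 0 < m)
  have hs : 0 < ((m : ℝ) / Real.log m) ^ 2 := by positivity
  rw [Real.dist_eq, abs_lt]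
  constructor
  · have : c - ε / 2 ≤ (f m : ℝ) / ((m : ℝ) / Real.log m) ^ 2 := by
      rw [le_div_iff₀ hs]
      exact h1
    linarith
  · have : (f m : ℝ) / ((m : ℝ) / Real.log m) ^ 2 ≤ c + ε / 2 := by
      rw [div_le_iff₀ hs]
      exact h2
    linarith

/-- Below the constant only an exponentially small fraction is contained. -/
theorem lower (α ε : ℝ) (hα : 0 < α) (hε : 0 < ε) : ∃ c' : ℝ, 0 < c' ∧ ∃ m0 : ℕ, ∀ m ≥ m0,
    ∀ (N : ℕ) (G : SimpleGraph (Fin N)),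
      (G.edgeSet.ncard : ℝ) ≤ (α ^ 2 / 2 * Real.exp (-α) - ε) * ((m : ℝ) / Real.log m) ^ 2 →
      ({H ∈ Gr (nA α m) m | H.IsContained G}.ncard : ℝ) ≤
        Real.exp (-(c' * m)) * ((Gr (nA α m) m).ncard : ℝ) := by
  obtain ⟨c', hc', m0, h0⟩ := lower_exp α (ε / 2) hα (by linarith)
  refine ⟨c', hc', max m0 2, fun m hm N G hG => ?_⟩
  have hm2 : 2 ≤ m := le_trans (le_max_right _ _) hm
  have hlog : 0 < Real.log (m : ℝ) := Real.log_pos (by exact_mod_cast (by omega : 1 < m))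
  have hmpos : (0 : ℝ) < m := by exact_mod_cast (by omega : 0 < m)
  have hs : 0 < ((m : ℝ) / Real.log m) ^ 2 := by positivity
  have h1 := h0 m (le_trans (le_max_left _ _) hm) G.edgeSet.ncard
  have h2 : ¬ ((((nA α m).choose 2).choose m : ℝ) ≤
      Real.exp (c' * m) * ((G.edgeSet.ncard).choose m * (nA α m).factorial)) := by
    intro h
    have h3 := h1 h
    have h4 := mul_pos (half_pos hε) hs
    nlinarith
  rw [not_le, ← card_Gr] at h2
  have h3 := card_contained (nA α m) m N G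
  have h4 : ({H ∈ Gr (nA α m) m | H.IsContained G}.ncard : ℝ) ≤
      ((G.edgeSet.ncard).choose m * (nA α m).factorial : ℝ) := by exact_mod_cast h3
  have h5 : Real.exp (-(c' * m)) * Real.exp (c' * m) = 1 := by
    rw [← Real.exp_add]
    simp
  have h6 := mul_le_mul_of_nonneg_left h2.le (Real.exp_pos (-(c' * m))).le
  rw [← mul_assoc, h5, one_mul] at h6
  exact h4.trans h6

theorem exp_small (c' c : ℝ) (hc' : 0 < c') (hc : 0 < c) :
    ∃ m0 : ℕ, ∀ m ≥ m0, Real.exp (-(c' * (m : ℝ))) < c := by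
  have h1 : Tendsto (fun m : ℕ => Real.exp (-(c' * (m : ℝ)))) atTop (𝓝 0) := by
    apply Real.tendsto_exp_atBot.comp
    apply tendsto_neg_atTop_atBot.comp
    exact Tendsto.const_mul_atTop hc' tendsto_natCast_atTop_atTop
  have h2 := (tendsto_order.1 h1).2 c hc
  rw [eventually_atTop] at h2
  exact h2

theorem pow_small (c' c : ℝ) (hc' : 0 < c') (hc : 0 < c) :
    ∃ m0 : ℕ, ∀ m ≥ m0, (m : ℝ) ^ (-c') < c := by
  have h1 : Tendsto (fun m : ℕ => (m : ℝ) ^ (-c')) atTop (𝓝 0) :=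
    (tendsto_rpow_neg_atTop hc').comp tendsto_natCast_atTop_atTop
  have h2 := (tendsto_order.1 h1).2 c hc
  rw [eventually_atTop] at h2
  exact h2

/-- Above the constant all but a fraction `m ^ (-c')` can be contained. -/
theorem upper (α ε : ℝ) (hα : 0 < α) (hε : 0 < ε) : ∃ c' : ℝ, 0 < c' ∧ ∃ m0 : ℕ, ∀ m ≥ m0,
    ∃ (N : ℕ) (G : SimpleGraph (Fin N)),
      (G.edgeSet.ncard : ℝ) ≤ (α ^ 2 / 2 * Real.exp (-α) + ε) * ((m : ℝ) / Real.log m) ^ 2 ∧
      ({H ∈ Gr (nA α m) m | ¬ H.IsContained G}.ncard : ℝ) ≤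
        (m : ℝ) ^ (-c') * ((Gr (nA α m) m).ncard : ℝ) := by
  obtain ⟨κ, hκ, m0, h0⟩ := upper_pow α ε hα hε
  refine ⟨κ, hκ, max m0 1, fun m hm => ?_⟩
  obtain ⟨N, G, h1, h2⟩ := h0 m (le_trans (le_max_left _ _) hm)
  refine ⟨N, G, h2, ?_⟩
  have hm1 : 1 ≤ m := le_trans (le_max_right _ _) hm
  have hmpos : (0 : ℝ) < m := by exact_mod_cast (by omega : 0 < m)
  have e : (m : ℝ) ^ (-κ) = Real.exp (-(κ * Real.log m)) := by
    rw [Real.rpow_def_of_pos hmpos]
    congr 1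
    ring
  rw [e]
  exact h1

theorem gr_pos (α : ℝ) (hα : 0 < α) : ∃ m0 : ℕ, ∀ m ≥ m0, 0 < (Gr (nA α m) m).ncard := by
  obtain ⟨c', hc', m0, h0⟩ := lower_exp α (α ^ 2 / 2 * Real.exp (-α) / 2) hα (by positivity)
  refine ⟨max m0 2, fun m hm => ?_⟩
  have hm2 : 2 ≤ m := le_trans (le_max_right _ _) hm
  have hlog : 0 < Real.log (m : ℝ) := Real.log_pos (by exact_mod_cast (by omega : 1 < m))
  have hmpos : (0 : ℝ) < m := by exact_mod_cast (by omega : 0 < m)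
  have hs : 0 < ((m : ℝ) / Real.log m) ^ 2 := by positivity
  by_contra hcon
  have hz : (Gr (nA α m) m).ncard = 0 := by omega
  rw [card_Gr] at hz
  have h1 := h0 m (le_trans (le_max_left _ _) hm) 0 (by rw [hz]; simp; positivity)
  have h2 : 0 < (α ^ 2 / 2 * Real.exp (-α) - α ^ 2 / 2 * Real.exp (-α) / 2) *
      ((m : ℝ) / Real.log m) ^ 2 := by
    apply mul_pos _ hs
    have : 0 < α ^ 2 / 2 * Real.exp (-α) := by positivity
    linarith
  rw [Nat.cast_zero] at h1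
  linarith

theorem frac (α : ℝ) (hα : 0 < α) (c : ℝ) (hc0 : 0 < c) (hc1 : c < 1) :
    Tendsto (fun m : ℕ => (fFrac α c m : ℝ) / ((m : ℝ) / Real.log m) ^ 2) atTop
      (𝓝 (α ^ 2 / 2 * Real.exp (-α))) := by
  refine tendsto_of _ _ fun ε hε => ?_
  obtain ⟨c1, hc1', m1, h1⟩ := lower α ε hα hε
  obtain ⟨c2, hc2', m2, h2⟩ := upper α ε hα hε
  obtain ⟨m3, h3⟩ := exp_small c1 c hc1' hc0
  obtain ⟨m4, h4⟩ := pow_small c2 (1 - c) hc2' (by linarith)
  obtain ⟨m5, h5⟩ := gr_pos α hα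
  refine ⟨m1 + m2 + m3 + m4 + m5, fun m hm => ?_⟩
  have hpos : (0 : ℝ) < ((Gr (nA α m) m).ncard : ℝ) := by exact_mod_cast h5 m (by omega)
  obtain ⟨N, G, hG1, hG2⟩ := h2 m (by omega)
  have hmem : G.edgeSet.ncard ∈ {k | ∃ (N : ℕ) (G : SimpleGraph (Fin N)),
      G.edgeSet.ncard = k ∧ c * ((Gr (nA α m) m).ncard : ℝ) ≤
        ({H ∈ Gr (nA α m) m | H.IsContained G}.ncard : ℝ)} := by
    refine ⟨N, G, rfl, ?_⟩
    have e0 : Gr (nA α m) m ⊆ {H ∈ Gr (nA α m) m | H.IsContained G} ∪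
        {H ∈ Gr (nA α m) m | ¬ H.IsContained G} := by
      intro H hH
      by_cases h : H.IsContained G
      · exact Or.inl ⟨hH, h⟩
      · exact Or.inr ⟨hH, h⟩
    have e1 := (Set.ncard_le_ncard e0 (Set.toFinite _)).trans (Set.ncard_union_le _ _)
    have e2 : ((Gr (nA α m) m).ncard : ℝ) ≤
        ({H ∈ Gr (nA α m) m | H.IsContained G}.ncard : ℝ) +
        ({H ∈ Gr (nA α m) m | ¬ H.IsContained G}.ncard : ℝ) := by exact_mod_cast e1
    have e3 := h4 m (by omega)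
    nlinarith
  constructor
  · obtain ⟨N', G', hk, hG'⟩ := Nat.sInf_mem (Set.nonempty_of_mem hmem)
    by_contra hcon
    push Not at hcon
    have hk' : (G'.edgeSet.ncard : ℝ) ≤
        (α ^ 2 / 2 * Real.exp (-α) - ε) * ((m : ℝ) / Real.log m) ^ 2 := by
      rw [hk]
      exact hcon.le
    have h6 := h1 m (by omega) N' G' hk'
    have h7 := h3 m (by omega)
    nlinarith
  · refine le_trans ?_ hG1
    exact_mod_cast Nat.sInf_le hmem

/-- For every `α > 0`: the two bounds, with error fractions `m ^ (-c')` and `e ^ (-c' m)`; and for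
every `0 < c < 1`, `fFrac α c m / (m / ln m)^2` tends to `α^2 e^(-α) / 2` as `m → ∞`. -/
theorem result (α : ℝ) (hα : 0 < α) :
    (∀ ε : ℝ, 0 < ε → ∃ c' : ℝ, 0 < c' ∧ ∃ m0 : ℕ, ∀ m ≥ m0,
      (∃ (N : ℕ) (G : SimpleGraph (Fin N)),
        (G.edgeSet.ncard : ℝ) ≤ (α ^ 2 / 2 * Real.exp (-α) + ε) * ((m : ℝ) / Real.log m) ^ 2 ∧
        ({H ∈ Gr (nA α m) m | ¬ H.IsContained G}.ncard : ℝ) ≤
          (m : ℝ) ^ (-c') * ((Gr (nA α m) m).ncard : ℝ)) ∧
      (∀ (N : ℕ) (G : SimpleGraph (Fin N)),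
        (G.edgeSet.ncard : ℝ) ≤ (α ^ 2 / 2 * Real.exp (-α) - ε) * ((m : ℝ) / Real.log m) ^ 2 →
        ({H ∈ Gr (nA α m) m | H.IsContained G}.ncard : ℝ) ≤
          Real.exp (-(c' * m)) * ((Gr (nA α m) m).ncard : ℝ))) ∧
    (∀ c : ℝ, 0 < c → c < 1 →
      Tendsto (fun m : ℕ => (fFrac α c m : ℝ) / ((m : ℝ) / Real.log m) ^ 2) atTop
        (𝓝 (α ^ 2 / 2 * Real.exp (-α)))) := by
  refine ⟨fun ε hε => ?_, frac α hα⟩
  obtain ⟨c1, hc1, m1, h1⟩ := lower α ε hα hε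
  obtain ⟨c2, hc2, m2, h2⟩ := upper α ε hα hε
  refine ⟨min c1 c2, lt_min hc1 hc2, max (max m1 m2) 1, fun m hm => ⟨?_, ?_⟩⟩
  · obtain ⟨N, G, hG1, hG2⟩ :=
      h2 m (le_trans ((le_max_right _ _).trans (le_max_left _ _)) hm)
    refine ⟨N, G, hG1, hG2.trans ?_⟩
    apply mul_le_mul_of_nonneg_right _ (Nat.cast_nonneg _)
    apply Real.rpow_le_rpow_of_exponent_le
    · exact_mod_cast le_trans (le_max_right _ _) hm
    · apply neg_le_neg
      exact min_le_right _ _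
  · intro N G hG
    refine (h1 m (le_trans ((le_max_left _ _).trans (le_max_left _ _)) hm) N G hG).trans ?_
    apply mul_le_mul_of_nonneg_right _ (Nat.cast_nonneg _)
    apply Real.exp_le_exp.2
    apply neg_le_neg
    exact mul_le_mul_of_nonneg_right (min_le_left _ _) (Nat.cast_nonneg _)

end Pool.Agent.Results.MP_1f2a9f_co.FixedOrder
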