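import Pool.Agent.Lib.MP_1f2a9f_co.KW.UpperMax
import Pool.Agent.Lib.MP_1f2a9f_co.KW.LowerReg
import Pool.Agent.Lib.MP_1f2a9f_co.KW.UpperBal

/-!
# MP_1f2a9f_co : the exact constant for regular and nearly regular guests

The least number of edges of a graph containing every regular graph (of degree at least one) with
at most `m` edges is `(4/9 + o(1)) (m / ln m)^2`. The same holds for three larger classes of graphs
without isolated vertices:
* the graphs on `n` vertices with maximum degree at most `Δ`, for all `n`, `Δ` with `n Δ ≤ 2 m`;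
* the graphs with at most `m` edges in which any two vertices of the same component have degrees
  within a factor `5/4` of each other (vertices of different components are not restricted);
* the graphs with at most `m` edges whose edges can be fractionally oriented, each end getting at
  least a quarter of each edge, such that any two vertices of the same component get the same total
  up to a factor `5/4`.
-/

set_option autoImplicit false

open Filter Topology Pool.Agent.Lib.MP_1f2a9f_co.KW

namespace Pool.Agent.Results.MP_1f2a9f_co.RegularGuests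

/-- `G` contains (as a, not necessarily induced, subgraph) every regular graph of degree at least
one with at most `m` edges. -/
def ContainsRegular (m : ℕ) {W : Type} (G : SimpleGraph W) : Prop :=
  ∀ (n d : ℕ) (H : SimpleGraph (Fin n)), 1 ≤ d → (∀ v, (H.neighborSet v).ncard = d) →
    H.edgeSet.ncard ≤ m → H.IsContained G

/-- `G` contains every graph `H` without isolated vertices on `n` vertices and of maximum degree at
most `Δ`, for all `n`, `Δ` with `n Δ ≤ 2 m` (so `H` has at most `m` edges). -/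
def ContainsBounded (m : ℕ) {W : Type} (G : SimpleGraph W) : Prop :=
  ∀ (n Δ : ℕ) (H : SimpleGraph (Fin n)), n * Δ ≤ 2 * m → (∀ v, ∃ w, H.Adj v w) →
    (∀ v, (H.neighborSet v).ncard ≤ Δ) → H.IsContained G

/-- `G` contains every graph without isolated vertices and with at most `m` edges in which
`4 deg u ≤ 5 deg v` for any two vertices `u`, `v` of the same component. -/
def ContainsNearRegular (m : ℕ) {W : Type} (G : SimpleGraph W) : Prop :=
  ∀ (n : ℕ) (H : SimpleGraph (Fin n)), H.edgeSet.ncard ≤ m → (∀ v, ∃ w, H.Adj v w) →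
    (∀ u v, H.Reachable u v → 4 * (H.neighborSet u).ncard ≤ 5 * (H.neighborSet v).ncard) →
    H.IsContained G

open Classical in
/-- The edges of `H` can be shared between their ends (the end `u` of the edge `u v` gets `α u v`),
each end getting at least a quarter of the edge, such that `4 load u ≤ 5 load v` for any two vertices
`u`, `v` of the same component, where `load u` is the total amount which `u` gets. -/
def HasBalancedSharing {n : ℕ} (H : SimpleGraph (Fin n)) : Prop :=
  ∃ α : Fin n → Fin n → ℝ, (∀ u v, H.Adj u v → α u v + α v u = 1 ∧ 1 / 4 ≤ α u v) ∧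
    ∀ u v, H.Reachable u v →
      4 * ∑ w ∈ Finset.univ.filter (fun w => H.Adj u w), α u w ≤
        5 * ∑ w ∈ Finset.univ.filter (fun w => H.Adj v w), α v w

/-- `G` contains every graph without isolated vertices and with at most `m` edges with
`HasBalancedSharing`. -/
def ContainsBalanced (m : ℕ) {W : Type} (G : SimpleGraph W) : Prop :=
  ∀ (n : ℕ) (H : SimpleGraph (Fin n)), H.edgeSet.ncard ≤ m → (∀ v, ∃ w, H.Adj v w) →
    HasBalancedSharing H → H.IsContained G

/-- The least number of edges of a finite graph with `ContainsRegular m`. -/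
noncomputable def fReg (m : ℕ) : ℕ :=
  sInf {k | ∃ (N : ℕ) (G : SimpleGraph (Fin N)), G.edgeSet.ncard = k ∧ ContainsRegular m G}

/-- The least number of edges of a finite graph with `ContainsBounded m`. -/
noncomputable def fMax (m : ℕ) : ℕ :=
  sInf {k | ∃ (N : ℕ) (G : SimpleGraph (Fin N)), G.edgeSet.ncard = k ∧ ContainsBounded m G}

/-- The least number of edges of a finite graph with `ContainsNearRegular m`. -/
noncomputable def fNear (m : ℕ) : ℕ :=
  sInf {k | ∃ (N : ℕ) (G : SimpleGraph (Fin N)), G.edgeSet.ncard = k ∧ ContainsNearRegular m G}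

/-- The least number of edges of a finite graph with `ContainsBalanced m`. -/
noncomputable def fBal (m : ℕ) : ℕ :=
  sInf {k | ∃ (N : ℕ) (G : SimpleGraph (Fin N)), G.edgeSet.ncard = k ∧ ContainsBalanced m G}

theorem regular_of_bounded {m : ℕ} {W : Type} {G : SimpleGraph W} (h : ContainsBounded m G) :
    ContainsRegular m G := by
  classical
  intro n d H hd hreg hm
  refine h n d H ?_ ?_ (fun v => (hreg v).le)
  · have h1 : ∑ v, H.degree v = 2 * H.edgeFinset.card := H.sum_degrees_eq_twice_card_edges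
    have h2 : ∀ v, H.degree v = d := by
      intro v
      rw [← hreg v, ← SimpleGraph.card_neighborSet_eq_degree, Set.ncard_eq_toFinset_card',
        Set.toFinset_card]
    have h3 : H.edgeFinset.card = H.edgeSet.ncard := by
      rw [Set.ncard_eq_toFinset_card']
      rfl
    simp only [h2, Finset.sum_const, Finset.card_univ, Fintype.card_fin, smul_eq_mul] at h1
    rw [h1, h3]
    omega
  · intro v
    have h4 : (H.neighborSet v).Nonempty := by
      rw [← Set.ncard_pos, hreg v]
      exact hd
    obtain ⟨w, hw⟩ := h4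
    exact ⟨w, hw⟩

theorem regular_of_near {m : ℕ} {W : Type} {G : SimpleGraph W} (h : ContainsNearRegular m G) :
    ContainsRegular m G := by
  classical
  intro n d H hd hreg hm
  refine h n H hm ?_ ?_
  · intro v
    have h4 : (H.neighborSet v).Nonempty := by
      rw [← Set.ncard_pos, hreg v]
      exact hd
    obtain ⟨w, hw⟩ := h4
    exact ⟨w, hw⟩
  · intro u v _
    rw [hreg u, hreg v]
    omega

theorem balanced_iff {n : ℕ} (H : SimpleGraph (Fin n)) : Balanced H ↔ HasBalancedSharing H :=
  Iff.rfl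

theorem near_of_balanced {m : ℕ} {W : Type} {G : SimpleGraph W} (h : ContainsBalanced m G) :
    ContainsNearRegular m G := fun n H hm hiso hdeg =>
  h n H hm hiso ((balanced_iff H).1 (balanced_of_degree H hdeg))

theorem balanced_of_univ {m : ℕ} {W : Type} {G : SimpleGraph W} (h : UnivBal m G) :
    ContainsBalanced m G := fun n H hm hiso hb => h n H hm hiso ((balanced_iff H).2 hb)

theorem tendsto_of (f : ℕ → ℕ) (c : ℝ)
    (h : ∀ ε : ℝ, 0 < ε → ∃ m0 : ℕ, ∀ m ≥ m0,
      (c - ε) * ((m : ℝ) / Real.log m) ^ 2 ≤ (f m : ℝ) ∧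
      (f m : ℝ) ≤ (c + ε) * ((m : ℝ) / Real.log m) ^ 2) :
    Tendsto (fun m : ℕ => (f m : ℝ) / ((m : ℝ) / Real.log m) ^ 2) atTop (𝓝 c) := by
  rw [Metric.tendsto_atTop]
  intro ε hε
  obtain ⟨m0, h0⟩ := h (ε / 2) (by positivity)
  refine ⟨max m0 3, fun m hm => ?_⟩
  obtain ⟨h1, h2⟩ := h0 m (le_trans (le_max_left _ _) hm)
  have hm3 : 3 ≤ m := le_trans (le_max_right _ _) hm
  have hlog : 0 < Real.log m := Real.log_pos (by exact_mod_cast (by omega : 1 < m))
  have hmpos : (0 : ℝ) < m := by exact_mod_cast (by omega : 0 < m)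
  have hs : 0 < ((m : ℝ) / Real.log m) ^ 2 := by positivity
  rw [Real.dist_eq, abs_lt]
  constructor
  · have : c - ε / 2 ≤ (f m : ℝ) / ((m : ℝ) / Real.log m) ^ 2 := by
      rw [le_div_iff₀ hs]
      exact h1
    linarith
  · have : (f m : ℝ) / ((m : ℝ) / Real.log m) ^ 2 ≤ c + ε / 2 := by
      rw [div_le_iff₀ hs]
      exact h2
    linarith

/-- For a property `P m` of graphs which implies `ContainsRegular m` and which some graph with at
most `(4/9 + ε) (m / ln m)^2` edges has, the least number of edges is `(4/9 + o(1)) (m / ln m)^2`. -/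
theorem limit_of (P : ℕ → ∀ {W : Type}, SimpleGraph W → Prop)
    (hP : ∀ (m N : ℕ) (G : SimpleGraph (Fin N)), P m G → ContainsRegular m G)
    (hU : ∀ ε : ℝ, 0 < ε → ∃ m0 : ℕ, ∀ m ≥ m0, ∃ (N : ℕ) (G : SimpleGraph (Fin N)), P m G ∧
      (G.edgeSet.ncard : ℝ) ≤ (4 / 9 + ε) * ((m : ℝ) / Real.log m) ^ 2) :
    Tendsto (fun m : ℕ => ((sInf {k | ∃ (N : ℕ) (G : SimpleGraph (Fin N)),
      G.edgeSet.ncard = k ∧ P m G} : ℕ) : ℝ) / ((m : ℝ) / Real.log m) ^ 2) atTop (𝓝 (4 / 9)) := by
  refine tendsto_of (fun m => sInf {k | ∃ (N : ℕ) (G : SimpleGraph (Fin N)),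
      G.edgeSet.ncard = k ∧ P m G}) (4 / 9) fun ε hε => ?_
  obtain ⟨m1, h1⟩ := lower_reg ε hε
  obtain ⟨m2, h2⟩ := hU ε hε
  refine ⟨max m1 m2, fun m hm => ?_⟩
  obtain ⟨N, G, hG, hGe⟩ := h2 m ((le_max_right _ _).trans hm)
  have hmem : G.edgeSet.ncard ∈ {k | ∃ (N : ℕ) (G : SimpleGraph (Fin N)),
      G.edgeSet.ncard = k ∧ P m G} := ⟨N, G, rfl, hG⟩
  obtain ⟨N', G', hk, hG'⟩ := Nat.sInf_mem (Set.nonempty_of_mem hmem)
  refine ⟨?_, ?_⟩
  · have h3 := h1 m ((le_max_left _ _).trans hm) N' G' (hP m N' G' hG')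
    rw [hk] at h3
    exact h3
  · refine le_trans ?_ hGe
    exact_mod_cast Nat.sInf_le hmem

theorem result :
    Tendsto (fun m : ℕ => (fReg m : ℝ) / ((m : ℝ) / Real.log m) ^ 2) atTop (𝓝 (4 / 9)) ∧
    Tendsto (fun m : ℕ => (fMax m : ℝ) / ((m : ℝ) / Real.log m) ^ 2) atTop (𝓝 (4 / 9)) ∧
    Tendsto (fun m : ℕ => (fNear m : ℝ) / ((m : ℝ) / Real.log m) ^ 2) atTop (𝓝 (4 / 9)) ∧
    Tendsto (fun m : ℕ => (fBal m : ℝ) / ((m : ℝ) / Real.log m) ^ 2) atTop (𝓝 (4 / 9)) := by
  refine ⟨?_, ?_, ?_, ?_⟩
  · refine limit_of (fun m {W} G => ContainsRegular m G) (fun m N G h => h) fun ε hε => ?_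
    obtain ⟨m0, h0⟩ := upper_max ε hε
    refine ⟨m0, fun m hm => ?_⟩
    obtain ⟨N, G, hG, hGe⟩ := h0 m hm
    exact ⟨N, G, regular_of_bounded hG, hGe⟩
  · refine limit_of (fun m {W} G => ContainsBounded m G) (fun m N G h => regular_of_bounded h)
      fun ε hε => ?_
    obtain ⟨m0, h0⟩ := upper_max ε hε
    exact ⟨m0, fun m hm => h0 m hm⟩
  · refine limit_of (fun m {W} G => ContainsNearRegular m G) (fun m N G h => regular_of_near h)
      fun ε hε => ?_
    obtain ⟨m0, h0⟩ := upper_bal ε hε
    refine ⟨m0, fun m hm => ?_⟩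
    obtain ⟨N, G, hG, hGe⟩ := h0 m hm
    exact ⟨N, G, near_of_balanced (balanced_of_univ hG), hGe⟩
  · refine limit_of (fun m {W} G => ContainsBalanced m G)
      (fun m N G h => regular_of_near (near_of_balanced h)) fun ε hε => ?_
    obtain ⟨m0, h0⟩ := upper_bal ε hε
    refine ⟨m0, fun m hm => ?_⟩
    obtain ⟨N, G, hG, hGe⟩ := h0 m hm
    exact ⟨N, G, balanced_of_univ hG, hGe⟩

end Pool.Agent.Results.MP_1f2a9f_co.RegularGuests
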