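import Pool.Agent.Lib.MP_1f2a9f_co.Low5
import Pool.Agent.Lib.MP_1f2a9f_co.Top

/-!
# MP_1f2a9f_co : the asymptotic value of `f(m)` up to the factor `9/8`

`f m` is the least number of edges of a finite graph containing every graph with exactly `m` edges
and no isolated vertex. For every `ε > 0` and all large `m`
`(4/9 - ε) (m / ln m)^2 ≤ f m ≤ (1/2 + ε) (m / ln m)^2`.
-/

namespace Pool.Agent.Results.MP_1f2a9f_co.SharpConstants

/-- `G` contains every graph with exactly `m` edges and minimum degree at least one (as a, not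
necessarily induced, subgraph). -/
def ContainsAll (m : ℕ) {W : Type} (G : SimpleGraph W) : Prop :=
  ∀ (n : ℕ) (H : SimpleGraph (Fin n)), H.edgeSet.ncard = m → (∀ v, ∃ w, H.Adj v w) →
    H.IsContained G

/-- The least number of edges of a finite graph `G` with `ContainsAll m G`. -/
noncomputable def f (m : ℕ) : ℕ :=
  sInf {k | ∃ (N : ℕ) (G : SimpleGraph (Fin N)), G.edgeSet.ncard = k ∧ ContainsAll m G}

theorem result :
    (∀ ε : ℝ, 0 < ε → ∃ m0 : ℕ, ∀ m ≥ m0,
      (4 / 9 - ε) * ((m : ℝ) / Real.log m) ^ 2 ≤ (f m : ℝ) ∧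
      (f m : ℝ) ≤ (1 / 2 + ε) * ((m : ℝ) / Real.log m) ^ 2) ∧
    (fun m : ℕ => (f m : ℝ)) =Θ[Filter.atTop] (fun m : ℕ => ((m : ℝ) / Real.log m) ^ 2) := by
  have main : ∀ ε : ℝ, 0 < ε → ∃ m0 : ℕ, ∀ m ≥ m0,
      (4 / 9 - ε) * ((m : ℝ) / Real.log m) ^ 2 ≤ (f m : ℝ) ∧
      (f m : ℝ) ≤ (1 / 2 + ε) * ((m : ℝ) / Real.log m) ^ 2 := by
    intro ε hε
    obtain ⟨m1, h1⟩ := Pool.Agent.Lib.MP_1f2a9f_co.lower_bound ε hε
    obtain ⟨m2, h2⟩ := Pool.Agent.Lib.MP_1f2a9f_co.upper_bound ε hε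
    refine ⟨max m1 m2, fun m hm => ?_⟩
    obtain ⟨N, G, hG, hGe⟩ := h2 m ((le_max_right _ _).trans hm)
    have hmem : G.edgeSet.ncard ∈ {k | ∃ (N : ℕ) (G : SimpleGraph (Fin N)),
        G.edgeSet.ncard = k ∧ ContainsAll m G} := ⟨N, G, rfl, hG⟩
    constructor
    · obtain ⟨N', G', hk, hG'⟩ := Nat.sInf_mem (Set.nonempty_of_mem hmem)
      have h3 := h1 m ((le_max_left _ _).trans hm) N' G' hG'
      rw [hk] at h3
      exact h3
    · refine le_trans ?_ hGe
      exact_mod_cast Nat.sInf_le hmem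
  refine ⟨main, ?_⟩
  constructor
  · obtain ⟨m0, h⟩ := main 1 one_pos
    rw [Asymptotics.isBigO_iff]
    refine ⟨3 / 2, ?_⟩
    filter_upwards [Filter.eventually_ge_atTop m0] with m hm
    rw [Real.norm_of_nonneg (by positivity), Real.norm_of_nonneg (by positivity)]
    have := (h m hm).2
    linarith
  · obtain ⟨m0, h⟩ := main (1 / 9) (by norm_num)
    rw [Asymptotics.isBigO_iff]
    refine ⟨3, ?_⟩
    filter_upwards [Filter.eventually_ge_atTop m0] with m hm
    rw [Real.norm_of_nonneg (by positivity), Real.norm_of_nonneg (by positivity)]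
    have := (h m hm).1
    linarith

end Pool.Agent.Results.MP_1f2a9f_co.SharpConstants
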